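import Pool.Agent.W207.PR.A0

set_option autoImplicit false

open Filter Topology Set MeasureTheory W207.PR
open scoped BigOperators

namespace Pool.Agent.W345.PR

theorem ct_abs (ψ : ℝ → ℝ) (x : ℝ) : ct ψ |x| = ct ψ x := by
  rcases abs_choice x with h | h
  · rw [h]
  · rw [h]
    unfold ct
    congr 1
    ext α
    rw [mul_neg, Real.cos_neg]

theorem dt_int (hD : S_DEC) {ψ : ℝ → ℝ} (hψ : Tst ψ) : Integrable (dt ψ) := by
  obtain ⟨-, hc, hn⟩ := hD ψ hψ
  obtain ⟨K, hK, hb⟩ := hn 2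
  have h1 : Integrable (fun x : ℝ => K * (1 + ‖x‖) ^ (-(2 : ℝ))) :=
    (integrable_one_add_norm (by simp)).const_mul K
  refine h1.mono' hc.aestronglyMeasurable (ae_of_all _ fun x => ?_)
  have h2 := (hb x).2
  have h3 : 0 < (1 + |x|) := by positivity
  rw [Real.norm_eq_abs, Real.norm_eq_abs, Real.rpow_neg h3.le, ← div_eq_mul_inv,
    le_div_iff₀ (by positivity)]
  calc |dt ψ x| * (1 + |x|) ^ (2 : ℝ) = |dt ψ x| * (1 + |x|) ^ 2 := by norm_cast
    _ ≤ K := h2

theorem ct_lim (hD : S_DEC) {ψ : ℝ → ℝ} (hψ : Tst ψ) : Tendsto (ct ψ) atTop (𝓝 0) := by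
  obtain ⟨-, -, hn⟩ := hD ψ hψ
  obtain ⟨K, hK, hb⟩ := hn 1
  have h1 : Tendsto (fun x : ℝ => K / (1 + |x|)) atTop (𝓝 0) :=
    Tendsto.div_atTop tendsto_const_nhds
      (tendsto_atTop_add_const_left _ _ tendsto_abs_atTop_atTop)
  refine squeeze_zero_norm (fun x => ?_) h1
  have h3 : 0 < (1 + |x|) := by positivity
  rw [Real.norm_eq_abs, le_div_iff₀ h3]
  simpa using (hb x).1

theorem ct_tail (hD : S_DEC) {ψ : ℝ → ℝ} (hψ : Tst ψ) {a : ℝ} (ha : 0 ≤ a) :
    IntegrableOn (fun u => if a ≤ u then dt ψ u else 0) (Ioi 0) ∧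
    ∫ u in Ioi (0 : ℝ), (if a ≤ u then dt ψ u else 0) = -ct ψ a := by
  have hi := dt_int hD hψ
  have he : (fun u => if a ≤ u then dt ψ u else 0) = (Ici a).indicator (dt ψ) := by
    ext u
    simp [indicator]
  refine ⟨?_, ?_⟩
  · rw [he]
    exact (hi.indicator measurableSet_Ici).integrableOn
  · rw [he, setIntegral_indicator measurableSet_Ici]
    have h2 : ∫ u in Ioi (0 : ℝ) ∩ Ici a, dt ψ u = ∫ u in Ioi a, dt ψ u := by
      apply setIntegral_congr_set
      rcases ha.eq_or_lt with h | h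
      · subst h
        have : Ioi (0 : ℝ) ∩ Ici 0 = Ioi 0 := by
          ext x; simp; exact le_of_lt
        exact Filter.EventuallyEq.of_eq this
      · have : Ioi (0 : ℝ) ∩ Ici a = Ici a := by
          ext x; simp; exact fun hx => h.trans_le hx
        rw [this]
        exact Ioi_ae_eq_Ici.symm
    rw [h2, integral_Ioi_of_hasDerivAt_of_tendsto (f := ct ψ)
      ((hD ψ hψ).1 a).continuousAt.continuousWithinAt (fun x _ => (hD ψ hψ).1 x) hi.integrableOn
      (ct_lim hD hψ), zero_sub]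

open Classical in
theorem core (hD : S_DEC) {ψ : ℝ → ℝ} (hψ : Tst ψ) (Z : Finset ℂ) (m : ℂ → ℝ) {L : ℝ} (hL : 0 < L)
    (Y : ℝ) :
    IntegrableOn (fun u => dt ψ u * ((∑ s ∈ Z, ∑ s' ∈ Z,
      if |s.im - s'.im| ≤ 2 * Real.pi * u / L then m s * m s' else 0) / Y)) (Ioi 0) ∧
    (∑ s ∈ Z, ∑ s' ∈ Z, m s * m s' * ct ψ ((s.im - s'.im) * L / (2 * Real.pi))) / Y =
      -∫ u in Ioi (0 : ℝ), dt ψ u * ((∑ s ∈ Z, ∑ s' ∈ Z,
        if |s.im - s'.im| ≤ 2 * Real.pi * u / L then m s * m s' else 0) / Y) := by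
  have hpi := Real.pi_pos
  set a : ℂ → ℂ → ℝ := fun s s' => |(s.im - s'.im) * L / (2 * Real.pi)| with ha
  have hc : ∀ (s s' : ℂ) (u : ℝ), |s.im - s'.im| ≤ 2 * Real.pi * u / L ↔ a s s' ≤ u := by
    intro s s' u
    rw [ha]
    simp only
    rw [abs_div, abs_mul, abs_of_pos hL, abs_of_pos (by positivity : 0 < 2 * Real.pi),
      div_le_iff₀ (by positivity), le_div_iff₀ hL, mul_comm u]
  have he : (fun u => dt ψ u * ((∑ s ∈ Z, ∑ s' ∈ Z,
      if |s.im - s'.im| ≤ 2 * Real.pi * u / L then m s * m s' else 0) / Y)) =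
      fun u => ∑ s ∈ Z, ∑ s' ∈ Z, (m s * m s' / Y) * (if a s s' ≤ u then dt ψ u else 0) := by
    ext u
    rw [Finset.sum_div, Finset.mul_sum]
    refine Finset.sum_congr rfl fun s _ => ?_
    rw [Finset.sum_div, Finset.mul_sum]
    refine Finset.sum_congr rfl fun s' _ => ?_
    simp only [hc s s' u]
    split_ifs
    · ring
    · ring
  have hint : ∀ s s' : ℂ, IntegrableOn
      (fun u => (m s * m s' / Y) * (if a s s' ≤ u then dt ψ u else 0)) (Ioi 0) := fun s s' =>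
    (ct_tail hD hψ (abs_nonneg _)).1.const_mul _
  rw [he]
  refine ⟨?_, ?_⟩
  · exact integrable_finsetSum _ fun s _ => integrable_finsetSum _ fun s' _ => hint s s'
  · rw [integral_finsetSum _ fun s _ => integrable_finsetSum _ fun s' _ => hint s s',
      ← Finset.sum_neg_distrib, Finset.sum_div]
    refine Finset.sum_congr rfl fun s _ => ?_
    rw [integral_finsetSum _ fun s' _ => hint s s', ← Finset.sum_neg_distrib, Finset.sum_div]
    refine Finset.sum_congr rfl fun s' _ => ?_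
    rw [integral_const_mul, (ct_tail hD hψ (abs_nonneg _)).2, ct_abs]
    ring

end Pool.Agent.W345.PR
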