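import Pool.Agent.W207.PR.Stmts
import Pool.Agent.W345.PR.Ibp0

set_option autoImplicit false

open Filter Topology Set MeasureTheory W207.PR
open scoped BigOperators

namespace Pool.Agent.W345.PR

theorem ibp : S_IBP := by
  intro hD ψ hψ T hT
  have hL : 0 < Real.log T := Real.log_pos (by linarith)
  have h := core hD hψ (ZT T) mz hL (X T)
  exact h

end Pool.Agent.W345.PR
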